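import Pool.Agent.Helper92.RECT.Goals3

/-!
# RECT-LIS: codes of lists of records
-/

namespace Pool.Agent.Helper86.RECT

open Pool.Agent.Helper65.LinSpace Pool.Agent.Helper78.Mpc Pool.Agent.Helper28.Ram Finset
open Pool.Agent.Helper65.OH (Prm OneHead Conf Par InBox co GoodQ Fns)
open Pool.Agent.Helper92.RECT

theorem num_lt {w : List Bool} {S : ℕ} (h : w.length ≤ S) : num w < 2 ^ (S + 1) := by
  have h1 := Nat.lt_pow_succ_log_self (b := 2) (by norm_num) (num w)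
  rw [log_num] at h1
  exact lt_of_lt_of_le h1 (Nat.pow_le_pow_right (by norm_num) (by omega))

theorem len_le {w : List Bool} {S : ℕ} (h : num w < 2 ^ (S + 1)) : w.length ≤ S := by
  have h1 : Nat.log 2 (num w) < S + 1 := Nat.log_lt_of_lt_pow (num_pos w).ne' h
  rw [log_num] at h1
  omega

theorem dig_ge {q N Λ i : ℕ} (hq : 0 < q) (h : Λ < q ^ N) (hi : N ≤ i) : dig q Λ i = 0 := by
  unfold dig
  rw [Nat.div_eq_of_lt (lt_of_lt_of_le h (Nat.pow_le_pow_right hq hi)), Nat.zero_mod]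

/-- The digits of the position of a record. -/
noncomputable def uD {D : ℕ} (κ : ℕ) (p : Fin D → ℤ) (k : ℕ) : ℕ :=
  if h : k < D ∧ k ≠ 0 then (p ⟨k, h.1⟩ + 2 ^ (κ - 1)).toNat else 0

/-- The code of a record. -/
noncomputable def fR {D : ℕ} (m : Prm) : Option (List Bool × (Fin D → ℤ)) → ℕ
  | none => 0
  | some ρ => num ρ.1 + 2 ^ (m.S + 1) * tab (2 ^ m.κ) D (uD m.κ ρ.2)

theorem uD_lt {D : ℕ} {κ : ℕ} (hκ : 0 < κ) {p : Fin D → ℤ}
    (h : ∀ k : Fin D, k.val ≠ 0 → -2 ^ (κ - 1) ≤ p k ∧ p k < 2 ^ (κ - 1)) (k : ℕ) :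
    uD κ p k < 2 ^ κ := by
  unfold uD
  split_ifs with hk
  · have h1 := h ⟨k, hk.1⟩ hk.2
    obtain ⟨c, rfl⟩ : ∃ c, κ = c + 1 := ⟨κ - 1, by omega⟩
    simp only [Nat.add_sub_cancel] at h1 ⊢
    have h3 : (2 : ℤ) ^ (c + 1) = 2 ^ c + 2 ^ c := by ring
    have h4 : (((p ⟨k, hk.1⟩ + 2 ^ c).toNat : ℕ) : ℤ) < ((2 ^ (c + 1) : ℕ) : ℤ) := by
      rw [Int.toNat_of_nonneg (by linarith [h1.1])]
      push_cast
      rw [h3]
      linarith [h1.2]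
    exact_mod_cast h4
  · positivity

theorem fR_rc {D : ℕ} (m : Prm) (hD : m.D = D) (hκ : 0 < m.κ) (ρ : List Bool × (Fin D → ℤ))
    (h1 : ρ.1.length ≤ m.S) (h2 : ∀ k : Fin D, k.val = 0 → ρ.2 k = 0)
    (h3 : ∀ k : Fin D, k.val ≠ 0 → -2 ^ (m.κ - 1) ≤ ρ.2 k ∧ ρ.2 k < 2 ^ (m.κ - 1)) :
    RC m ρ (fR m (some ρ)) ∧ fR m (some ρ) / 2 ^ (m.S + 1) % 2 ^ m.κ = 0 := by
  have hn := num_lt h1
  have hS : 0 < 2 ^ (m.S + 1) := by positivity
  have hu : ∀ i < D, uD m.κ ρ.2 i < 2 ^ m.κ := fun i _ => uD_lt hκ h3 i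
  have hT : tab (2 ^ m.κ) D (uD m.κ ρ.2) < 2 ^ (m.κ * D) := by
    rw [pow_mul]
    exact tab_lt hu
  have hdiv : fR m (some ρ) / 2 ^ (m.S + 1) = tab (2 ^ m.κ) D (uD m.κ ρ.2) := by
    show (num ρ.1 + 2 ^ (m.S + 1) * tab (2 ^ m.κ) D (uD m.κ ρ.2)) / 2 ^ (m.S + 1) = _
    rw [Nat.add_mul_div_left _ _ hS, Nat.div_eq_of_lt hn, Nat.zero_add]
  have hmod : fR m (some ρ) % 2 ^ (m.S + 1) = num ρ.1 := by
    show (num ρ.1 + 2 ^ (m.S + 1) * tab (2 ^ m.κ) D (uD m.κ ρ.2)) % 2 ^ (m.S + 1) = _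
    rw [Nat.add_mul_mod_self_left, Nat.mod_eq_of_lt hn]
  refine ⟨⟨?_, h1, hmod, h2, ?_⟩, ?_⟩
  · show num ρ.1 + 2 ^ (m.S + 1) * tab (2 ^ m.κ) D (uD m.κ ρ.2) < 2 ^ m.sg
    have e : m.sg = m.S + 1 + m.κ * D := by rw [Prm.sg, hD]
    rw [e]
    have h5 : tab (2 ^ m.κ) D (uD m.κ ρ.2) + 1 ≤ 2 ^ (m.κ * D) := hT
    calc num ρ.1 + 2 ^ (m.S + 1) * tab (2 ^ m.κ) D (uD m.κ ρ.2)
        < 2 ^ (m.S + 1) + 2 ^ (m.S + 1) * tab (2 ^ m.κ) D (uD m.κ ρ.2) := by omega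
      _ = 2 ^ (m.S + 1) * (tab (2 ^ m.κ) D (uD m.κ ρ.2) + 1) := by ring
      _ ≤ 2 ^ (m.S + 1) * 2 ^ (m.κ * D) := Nat.mul_le_mul_left _ h5
      _ = 2 ^ (m.S + 1 + m.κ * D) := (pow_add _ _ _).symm
  · intro k hk
    rw [hdiv, dig_tab hu k.isLt, uD, dif_pos ⟨k.isLt, hk⟩,
      Int.toNat_of_nonneg (by linarith [(h3 k hk).1])]
  · rw [hdiv]
    rcases Nat.eq_zero_or_pos D with h0 | h0
    · subst h0
      rw [tab_zero, Nat.zero_mod]
    · rw [← dig_zero, dig_tab hu h0, uD, dif_neg (by simp)]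

/-- Codes of lists of records. -/
theorem lis : LIS_stmt where
  dec := by
    intro D m hD Λ
    have key : ∀ i, ∃ o : Option (List Bool × (Fin D → ℤ)),
        (dig (2 ^ m.sg) Λ i = 0 ∧ o = none) ∨ ∃ ρ, o = some ρ ∧ dig (2 ^ m.sg) Λ i ≠ 0 ∧
          (RC m ρ (dig (2 ^ m.sg) Λ i) ∨ dig (2 ^ m.sg) Λ i % 2 ^ (m.S + 1) = 0) := by
      intro i
      by_cases h0 : dig (2 ^ m.sg) Λ i = 0
      · exact ⟨none, Or.inl ⟨h0, rfl⟩⟩
      by_cases h1 : dig (2 ^ m.sg) Λ i % 2 ^ (m.S + 1) = 0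
      · exact ⟨some ([], fun _ => 0), Or.inr ⟨_, rfl, h0, Or.inr h1⟩⟩
      obtain ⟨w, hw⟩ := exists_num (Nat.pos_of_ne_zero h1)
      refine ⟨some (w, fun k => if k.val = 0 then 0 else
        ((dig (2 ^ m.κ) (dig (2 ^ m.sg) Λ i / 2 ^ (m.S + 1)) k : ℕ) : ℤ) - 2 ^ (m.κ - 1)),
        Or.inr ⟨_, rfl, h0, Or.inl ⟨?_, ?_, ?_, ?_, ?_⟩⟩⟩
      · exact dig_lt (by positivity) _ _
      · refine len_le ?_
        show num w < _
        rw [hw]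
        exact Nat.mod_lt _ (by positivity)
      · exact hw.symm
      · intro k hk
        exact if_pos hk
      · intro k hk
        show _ = (if k.val = 0 then (0 : ℤ) else
          ((dig (2 ^ m.κ) (dig (2 ^ m.sg) Λ i / 2 ^ (m.S + 1)) k : ℕ) : ℤ) - 2 ^ (m.κ - 1)) +
            2 ^ (m.κ - 1)
        rw [if_neg hk]
        ring
    choose ℓ hℓ using key
    exact ⟨ℓ, hℓ⟩
  zero := by
    intro D m ℓ h i
    rcases h i with h1 | ⟨ρ, _, h2, _⟩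
    · exact h1.2
    · exfalso
      apply h2
      simp [dig]
  strong := by
    intro D m Λ ℓ h i
    rcases h i with h1 | ⟨ρ, h1, h2, _⟩
    · exact Or.inl h1
    · refine Or.inr ⟨ρ, h1, ?_, Or.inl h2⟩
      intro h0
      have h3 := h2.wq
      rw [h0, Nat.zero_mod] at h3
      exact (num_pos ρ.1).ne h3
  enc := by
    intro D m hD hκ N ℓ hN h
    have hf : ∀ i < N, fR m (ℓ i) < 2 ^ m.sg := by
      intro i _
      cases hi : ℓ i with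
      | none => exact (by positivity : 0 < 2 ^ m.sg)
      | some ρ =>
        obtain ⟨a1, a2, a3⟩ := h i ρ hi
        exact (fR_rc m hD hκ ρ a1 a2 a3).1.lt
    have hlt : tab (2 ^ m.sg) N (fun i => fR m (ℓ i)) < (2 ^ m.sg) ^ N := tab_lt hf
    refine ⟨tab (2 ^ m.sg) N (fun i => fR m (ℓ i)), ?_, ?_⟩
    · rw [pow_mul]
      exact hlt
    · intro i
      by_cases hi : i < N
      · rw [dig_tab hf hi]
        cases hi' : ℓ i with
        | none => exact Or.inl ⟨rfl, rfl⟩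
        | some ρ =>
          obtain ⟨a1, a2, a3⟩ := h i ρ hi'
          exact Or.inr ⟨ρ, rfl, fR_rc m hD hκ ρ a1 a2 a3⟩
      · exact Or.inl ⟨dig_ge (by positivity) hlt (by omega), hN i (by omega)⟩
  lt := by
    intro m N Λ h i hi
    by_contra hc
    rw [pow_mul] at h
    exact hi (dig_ge (by positivity) h (by omega))

end Pool.Agent.Helper86.RECT
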