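import Pool.Agent.Helper92.RECT.Goals5
import Pool.Agent.Helper15.OHS.LSW

/-!
# Packet RECT-LSS (author helper92): the slab process is computed in linear space
-/

set_option linter.unusedSectionVars false

namespace Pool.Agent.Helper86.RECT

open Pool.Agent.Helper65.LinSpace Pool.Agent.Helper78.Mpc Pool.Agent.Helper28.Ram Finset
open Pool.Agent.Helper65.OH (Prm)
open Pool.Agent.Helper54.OH (PF LS_accN LS_tab)
open Pool.Agent.Helper81.Sus2 (LSP)
open Pool.Agent.Helper81.Sus2H56 (lsp_comp ls_lk ls_pow2)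
open Pool.Agent.Helper28.OHS (cellN cs cn)
open Pool.Agent.Helper15.OHS (ls_cellN ls_cs ls_cn)
open Pool.Agent.Helper92.RECT

variable {α β : Type} [Ctx α] [Ctx β]

/-- Families of parameters with their data of the slab. -/
structure TS (t : α → Sp) (C : α → ℕ) : Prop where
  b : LSb t C
  Ph : LS (fun z => (t z).Ph)
  W : LS (fun z => (t z).W)
  n : LS (fun z => (t z).n)
  L : LS (fun z => (t z).L)
  R : LS (fun z => (t z).R)
  c : LS (fun z => (t z).c)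
  f : LS (fun z => (t z).f)
  al : LS (fun z => (t z).al)

theorem lsb_comp {t : α → Sp} {C : α → ℕ} (h : LSb t C) {π : β → α} (hπ : LS π) :
    LSb (fun b => t (π b)) (fun b => C (π b)) where
  m := h.m.comp hπ
  G := h.G.comp hπ
  e := lsp_comp h.e hπ
  ν := LS.comp (g := fun z => (t z).ν) h.ν hπ
  te := LS.comp (g := fun z => (t z).te) h.te hπ
  π := LS.comp (g := fun z => (t z).π) h.π hπ
  S := fun z => h.S (π z)
  D := fun z => h.D (π z)
  pos := fun z => h.pos (π z)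
  κ := fun z => h.κ (π z)
  d1 := fun z => h.d1 (π z)
  nm := fun z => h.nm (π z)
  hθ := fun z => h.hθ (π z)
  hπ := fun z => h.hπ (π z)

theorem le01_le (x y : ℕ) : le01 x y ≤ 1 := by
  unfold le01
  split_ifs <;> omega

theorem lt01_le (x y : ℕ) : lt01 x y ≤ 1 := by
  unfold lt01
  split_ifs <;> omega

namespace TS

variable {t : α → Sp} {C : α → ℕ}

theorem comp (h : TS t C) {π : β → α} (hπ : LS π) :
    TS (fun b => t (π b)) (fun b => C (π b)) where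
  b := lsb_comp h.b hπ
  Ph := LS.comp (g := fun z => (t z).Ph) h.Ph hπ
  W := LS.comp (g := fun z => (t z).W) h.W hπ
  n := LS.comp (g := fun z => (t z).n) h.n hπ
  L := LS.comp (g := fun z => (t z).L) h.L hπ
  R := LS.comp (g := fun z => (t z).R) h.R hπ
  c := LS.comp (g := fun z => (t z).c) h.c hπ
  f := LS.comp (g := fun z => (t z).f) h.f hπ
  al := LS.comp (g := fun z => (t z).al) h.al hπ

variable (h : TS t C)
include h

/-! ### Powers -/

theorem hC : LS C := h.b.m.hC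

theorem pw {f : α → ℕ} (hf : LS f) (hb : ∀ z, 2 ^ f z ≤ C z) : LS (fun z => 2 ^ f z) :=
  LS.pow_of_le (f := fun _ => 2) (LS.const 2) hf h.hC hb

theorem pπ : LS (fun z => 2 ^ (t z).π) :=
  h.pw h.b.π fun z => (Nat.pow_le_pow_right (by norm_num) (Nat.le_succ _)).trans (h.b.hπ z)

theorem θ_le {f : α → ℕ} (hf : ∀ z, f z ≤ (t z).θ) (z : α) : 2 ^ f z ≤ C z :=
  (Nat.pow_le_pow_right (by norm_num) ((hf z).trans (Nat.le_add_right _ _))).trans (h.b.hθ z)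

theorem pν : LS (fun z => 2 ^ (t z).ν) :=
  h.pw h.b.ν (h.θ_le fun z => by
    unfold Sp.θ
    omega)

theorem pte : LS (fun z => 2 ^ (t z).te) :=
  h.pw h.b.te (h.θ_le fun z => by
    unfold Sp.θ
    omega)

theorem θ : LS (fun z => (t z).θ) := by
  have h1 := h.b.m.S
  have h2 := h.b.ν
  have h3 := h.b.te
  unfold Sp.θ
  exact LS.add (LS.add h1 (LS.const 1)) (LS.add (LS.add (LS.const 3)
    (LS.mul (LS.const 2) h2)) h3)

theorem pθ : LS (fun z => 2 ^ (t z).θ) := h.pw h.θ (h.θ_le fun _ => le_rfl)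

/-! ### Global and local cells -/

variable {p q u v k g i j x y : α → ℕ}

theorem oA (hk : LS k) : LS (fun z => (t z).oA (k z)) :=
  LS.ifz hk (LS.add h.pπ h.b.m.pκ') h.b.m.pκ'

theorem oB (hk : LS k) : LS (fun z => (t z).oB (k z)) :=
  LS.ifz hk (LS.add h.Ph h.b.G.pκ') h.b.G.pκ'

theorem gc (hu : LS u) (hk : LS k) : LS (fun z => (t z).gc (u z) (k z)) :=
  LS.sub (LS.add hu (h.oB hk)) (h.oA hk)

theorem gv (hu : LS u) (hk : LS k) : LS (fun z => (t z).gv (u z) (k z)) :=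
  LS.mul (LS.le01 (h.oA hk) (LS.add hu (h.oB hk))) (LS.lt01 (h.gc hu hk) h.b.G.pκ)

theorem Gb5 (z : α) : (2 ^ (t z).G.κ) ^ (t z).m.D ≤ C z := by
  rw [← h.b.D z]
  exact h.b.G.b5 z

theorem gC (hp : LS p) : LS (fun z => (t z).gC (p z)) := by
  have h1 := h.comp (π := fun r : α × ℕ => r.1) LS.fst
  have hp1 : LS (fun r : α × ℕ => p r.1) := LS.comp (g := p) hp LS.fst
  exact LS_tab (q := fun z => 2 ^ (t z).G.κ) (m := fun z => (t z).m.D)
    (d := fun z k => (t z).gc (dig (2 ^ (t z).m.κ) (p z) k) k % 2 ^ (t z).G.κ) (C := C)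
    (B := fun z => 2 ^ (t z).G.κ)
    (LS.mod (h1.gc (LS.dig h1.b.m.pκ hp1 LS.snd) LS.snd) h1.b.G.pκ) h.b.G.pκ h.b.m.D h.hC
    h.b.G.pκ (fun z => by positivity) (fun z i _ => (Nat.mod_lt _ (by positivity)).le) h.Gb5

theorem gV (hp : LS p) : LS (fun z => (t z).gV (p z)) := by
  have h1 := h.comp (π := fun r : α × ℕ => r.1) LS.fst
  have hp1 : LS (fun r : α × ℕ => p r.1) := LS.comp (g := p) hp LS.fst
  exact LS.eq01 (LS.sum_le (N := fun z => (t z).m.D) (B := fun _ => 1)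
    (f := fun z k => 1 - (t z).gv (dig (2 ^ (t z).m.κ) (p z) k) k)
    (LS.sub (LS.const 1) (h1.gv (LS.dig h1.b.m.pκ hp1 LS.snd) LS.snd)) h.b.m.D (LS.const 1)
    (fun z i _ => Nat.sub_le _ _)) (LS.const 0)

theorem lc (hg : LS g) (hk : LS k) : LS (fun z => (t z).lc (g z) (k z)) :=
  LS.sub (LS.add hg (h.oA hk)) (h.oB hk)

theorem lv (hg : LS g) (hk : LS k) : LS (fun z => (t z).lv (g z) (k z)) :=
  LS.mul (LS.le01 (h.oB hk) (LS.add hg (h.oA hk))) (LS.mul (LS.lt01 (h.lc hg hk) h.b.m.pκ)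
    (LS.ifz hk (LS.mul (LS.le01 h.b.m.pκ' (h.lc hg hk))
      (LS.lt01 (h.lc hg hk) (LS.add h.b.m.pκ' h.W))) (LS.const 1)))

theorem lC (hp : LS p) : LS (fun z => (t z).lC (p z)) := by
  have h1 := h.comp (π := fun r : α × ℕ => r.1) LS.fst
  have hp1 : LS (fun r : α × ℕ => p r.1) := LS.comp (g := p) hp LS.fst
  exact LS_tab (q := fun z => 2 ^ (t z).m.κ) (m := fun z => (t z).m.D)
    (d := fun z k => (t z).lc (dig (2 ^ (t z).G.κ) (p z) k) k % 2 ^ (t z).m.κ) (C := C)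
    (B := fun z => 2 ^ (t z).m.κ)
    (LS.mod (h1.lc (LS.dig h1.b.G.pκ hp1 LS.snd) LS.snd) h1.b.m.pκ) h.b.m.pκ h.b.m.D h.hC
    h.b.m.pκ (fun z => by positivity) (fun z i _ => (Nat.mod_lt _ (by positivity)).le) h.b.m.b5

theorem lV (hp : LS p) : LS (fun z => (t z).lV (p z)) := by
  have h1 := h.comp (π := fun r : α × ℕ => r.1) LS.fst
  have hp1 : LS (fun r : α × ℕ => p r.1) := LS.comp (g := p) hp LS.fst
  exact LS.eq01 (LS.sum_le (N := fun z => (t z).m.D) (B := fun _ => 1)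
    (f := fun z k => 1 - (t z).lv (dig (2 ^ (t z).G.κ) (p z) k) k)
    (LS.sub (LS.const 1) (h1.lv (LS.dig h1.b.G.pκ hp1 LS.snd) LS.snd)) h.b.m.D (LS.const 1)
    (fun z i _ => Nat.sub_le _ _)) (LS.const 0)

theorem nm (hp : LS p) : LS (fun z => (t z).nm (p z)) := by
  have h1 := h.comp (π := fun r : α × ℕ => r.1) LS.fst
  have hp1 : LS (fun r : α × ℕ => p r.1) := LS.comp (g := p) hp LS.fst
  have hK : ∀ z, 2 ^ ((2 * (t z).G.κ + 3) * (t z).G.D + 1) ≤ C z := fun z => by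
    rw [h.b.D z]
    exact h.b.nm z
  refine LS.congr (ls_cellN h.b.G hK (u := fun z k => dig (2 ^ (t z).G.κ) (p z) k)
    (LS.dig h1.b.G.pκ hp1 LS.snd) (fun z k => (dig_lt (by positivity) _ _).le)) fun z => ?_
  unfold Sp.nm
  rw [h.b.D z]

theorem c0 : LS (fun z => (t z).c0) := by
  have h1 : LS (fun r : α × ℕ => 2 ^ ((t r.1).m.κ - 1)) :=
    LS.comp (g := fun z => 2 ^ ((t z).m.κ - 1)) h.b.m.pκ' LS.fst
  exact LS_tab (q := fun z => 2 ^ (t z).m.κ) (m := fun z => (t z).m.D)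
    (d := fun z _ => 2 ^ ((t z).m.κ - 1)) (C := C) (B := fun z => 2 ^ ((t z).m.κ - 1))
    h1 h.b.m.pκ h.b.m.D h.hC h.b.m.pκ' (fun z => by positivity) (fun z i _ => le_rfl) h.b.m.b5

theorem st0 (hp : LS p) (hu : LS u) : LS (fun z => (t z).st0 (p z) (u z)) :=
  LS.add (LS.sub hp (LS.mod hp h.b.m.pκ)) hu

/-! ### States -/

theorem cod {w : α → ℕ} (hu : LS u) (hv : LS v) (hi : LS i) (hj : LS j) (hw : LS w) (hp : LS p) :
    LS (fun z => (t z).cod (u z) (v z) (i z) (j z) (w z) (p z)) :=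
  LS.add (LS.add hu (LS.mul h.b.m.pS (LS.add hv (LS.mul (LS.const 8)
    (LS.add (LS.mod hi h.pν) (LS.mul h.pν (LS.add (LS.mod hj h.pν)
      (LS.mul h.pν (LS.mod hw h.pte))))))))) (LS.mul h.pθ hp)

theorem wq (hq : LS q) : LS (fun z => (t z).wq (q z)) := LS.mod hq h.b.m.pS

theorem md (hq : LS q) : LS (fun z => (t z).md (q z)) :=
  LS.mod (LS.div hq h.b.m.pS) (LS.const 8)

theorem ix (hq : LS q) : LS (fun z => (t z).ix (q z)) :=
  LS.mod (LS.div (LS.div hq h.b.m.pS) (LS.const 8)) h.pν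

theorem jx (hq : LS q) : LS (fun z => (t z).jx (q z)) :=
  LS.mod (LS.div (LS.div (LS.div hq h.b.m.pS) (LS.const 8)) h.pν) h.pν

theorem tx (hq : LS q) : LS (fun z => (t z).tx (q z)) :=
  LS.mod (LS.div (LS.div (LS.div (LS.div hq h.b.m.pS) (LS.const 8)) h.pν) h.pν) h.pte

theorem ce (hq : LS q) : LS (fun z => (t z).ce (q z)) := LS.div hq h.pθ

theorem bq (hq : LS q) : LS (fun z => (t z).bq (q z)) :=
  LS.add (h.wq hq) (LS.mul h.b.m.pS (h.ce hq))

theorem rcd (hq : LS q) : LS (fun z => (t z).rcd (q z)) :=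
  LS.add (LS.mod hq h.b.m.pS) (LS.mul h.b.m.pS (h.st0 (LS.div hq h.b.m.pS) (LS.const 0)))

theorem lL (hi : LS i) : LS (fun z => (t z).lL (i z)) := LS.dig h.b.m.psg h.L hi

theorem lR (hi : LS i) : LS (fun z => (t z).lR (i z)) := LS.dig h.b.m.psg h.R hi

theorem fl : LS (fun z => (t z).fl) :=
  h.cod (LS.const 1) (LS.const 0) (LS.const 0) (LS.const 0) (LS.const 0) h.c0

theorem en {w : α → ℕ} (hu : LS u) (hi : LS i) (hj : LS j) (hw : LS w) (hp : LS p) :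
    LS (fun z => (t z).en (u z) (i z) (j z) (w z) (p z)) :=
  LS.ifz (LS.mul hu (h.gV hp)) h.fl (h.cod hu (LS.const 1) hi hj hw hp)

theorem inn (hq : LS q) (hy : LS y) : LS (fun z => (t z).inn (q z) (y z)) := by
  have h1 : LS (fun z => y z / 2 ^ ((t z).m.S + 1)) := LS.div hy h.b.m.pS
  have h2 : LS (fun z => y z / 2 ^ ((t z).m.S + 1) % 2 ^ (t z).m.κ) := LS.mod h1 h.b.m.pκ
  have h3 : LS (fun z => (t z).tx (q z) + 1) := LS.add (h.tx hq) (LS.const 1)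
  exact LS.ifz (LS.lt01 h2 h.b.m.pκ')
    (LS.ifz (LS.le01 (LS.add h.b.m.pκ' h.W) h2)
      (h.en (LS.mod hy h.b.m.pS) (h.ix hq) (h.jx hq) h3 h1)
      (LS.ifz (LS.eq01 (h.lR (h.jx hq)) (h.rcd hy)) h.fl
        (h.cod (LS.const 1) (LS.const 3) (h.ix hq) (LS.add (h.jx hq) (LS.const 1)) h3 h.c0)))
    (LS.ifz (LS.eq01 (h.lL (h.ix hq)) (h.rcd hy)) h.fl
      (h.cod (LS.const 1) (LS.const 2) (LS.add (h.ix hq) (LS.const 1)) (h.jx hq) h3 h.c0))

theorem cnd (hq : LS q) (hv : LS v) : LS (fun z => eq01 ((t z).tx (q z)) (t z).n +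
    accN ((t z).wq (q z)) + eq01 ((t z).m.ok ((t z).bq (q z)) (v z)) 0) :=
  LS.add (LS.add (LS.eq01 (h.tx hq) h.n) (LS_accN (h.wq hq)))
    (LS.eq01 (h.b.m.ok (h.bq hq) hv) (LS.const 0))

theorem N1 (hq : LS q) (hv : LS v) : LS (fun z => (t z).N1 (q z) (v z)) :=
  LS.ifz (h.cnd hq hv) (h.inn hq (h.b.m.sq (h.bq hq) hv)) h.fl

theorem N2 (hq : LS q) : LS (fun z => (t z).N2 (q z)) :=
  h.en (LS.mod (h.lL (h.ix hq)) h.b.m.pS) (LS.add (h.ix hq) (LS.const 1)) (h.jx hq) (h.tx hq)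
    (h.st0 (LS.div (h.lL (h.ix hq)) h.b.m.pS) h.b.m.pκ')

theorem N3 (hq : LS q) : LS (fun z => (t z).N3 (q z)) :=
  h.en (LS.mod (h.lR (h.jx hq)) h.b.m.pS) (h.ix hq) (LS.add (h.jx hq) (LS.const 1)) (h.tx hq)
    (h.st0 (LS.div (h.lR (h.jx hq)) h.b.m.pS) (LS.sub (LS.add h.b.m.pκ' h.W) (LS.const 1)))

theorem N (hq : LS q) (hv : LS v) : LS (fun z => (t z).N (q z) (v z)) :=
  LS.ifz (LS.eq01 (h.md hq) (LS.const 1)) (LS.ifz (LS.eq01 (h.md hq) (LS.const 2))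
    (LS.ifz (LS.eq01 (h.md hq) (LS.const 3)) h.fl (h.N3 hq)) (h.N2 hq)) (h.N1 hq hv)

theorem Wr (hq : LS q) (hv : LS v) : LS (fun z => (t z).Wr (q z) (v z)) :=
  LS.ifz (LS.eq01 (h.md hq) (LS.const 1)) hv
    (LS.ifz (h.cnd hq hv) (h.b.m.nw (h.bq hq) hv) hv)

theorem fin (hq : LS q) : LS (fun z => (t z).fin (q z)) :=
  LS.ifz (h.md hq) (LS.const 1) (LS.mul (LS.eq01 (h.tx hq) h.n)
    (LS.eq01 (LS.add (h.lL (h.ix hq)) (h.lR (h.jx hq))) (LS.const 0)))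

theorem sc (hq : LS q) : LS (fun z => (t z).sc (q z)) :=
  LS.ifz (LS.eq01 (h.md hq) (LS.const 1)) (LS.const 1) (LS.ifz h.f (LS_accN (h.wq hq))
    (LS.eq01 (LS.add (h.wq hq) (LS.mul h.b.m.pS (h.gC (h.ce hq)))) (ls_cs h.b.G h.f)))

theorem fc (hq : LS q) (hv : LS v) : LS (fun z => (t z).fc (q z) (v z)) :=
  LS.ifz (h.md hq) (LS.const 0) (LS.mul (h.sc hq) (LS.ifz (LS.mul h.f (h.lV h.al)) (LS.const 1)
    (LS.eq01 hv (ls_cn h.b.G h.b.e h.f (h.nm h.al)))))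

theorem hp : LS (fun z => (t z).hp) := LS.div (ls_cs h.b.G h.c) h.b.m.pS

theorem hd : LS (fun z => dig (2 ^ (t z).G.κ) (t z).hp 0 + 2 ^ (t z).π) :=
  LS.add (LS.dig h.b.G.pκ h.hp (LS.const 0)) h.pπ

theorem lft : LS (fun z => (t z).lft) := LS.lt01 h.hd (LS.add h.Ph h.b.G.pκ')

theorem rgt : LS (fun z => (t z).rgt) := LS.le01 (LS.add (LS.add h.Ph h.b.G.pκ') h.W) h.hd

theorem q0 : LS (fun z => (t z).q0) :=
  LS.ifz h.lft (LS.ifz h.rgt (LS.ifz (h.lV h.hp) h.fl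
    (h.cod (LS.mod (ls_cs h.b.G h.c) h.b.m.pS) (LS.const 1) (LS.const 0) (LS.const 0)
      (LS.const 0) (h.lC h.hp)))
      (h.cod (LS.const 1) (LS.const 3) (LS.const 0) (LS.const 0) (LS.const 0) h.c0))
    (h.cod (LS.const 1) (LS.const 2) (LS.const 0) (LS.const 0) (LS.const 0) h.c0)

theorem M0 (hp : LS p) : LS (fun z => (t z).M0 (p z)) :=
  ls_cn h.b.G h.b.e h.c (h.nm (h.gC hp))

end TS

/-- **Packet RECT-LSS.** -/
theorem lss (hO : OKS_stmt) : LSS_stmt := by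
  intro α _ s C hs Ph W n L R c f al d a V Tc o hPh hW hn hL hR hc hf hal hd ha hV hTc ho
    hWb hVb hab hdb hod hSa hθV
  have hb : LSb (fun z => (s z).put (Ph z) (W z) (n z) (L z) (R z) (c z) (f z) (al z)) C :=
    { m := hs.m, G := hs.G, e := hs.e, ν := hs.ν, te := hs.te, π := hs.π, S := hs.S, D := hs.D,
      pos := hs.pos, κ := hs.κ, d1 := hs.d1, nm := hs.nm, hθ := hs.hθ, hπ := hs.hπ }
  have h : TS (fun z => (s z).put (Ph z) (W z) (n z) (L z) (R z) (c z) (f z) (al z)) C :=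
    { b := hb, Ph := hPh, W := hW, n := hn, L := hL, R := hR, c := hc, f := hf, al := hal }
  have h1 := h.comp (π := fun z : α × ℕ => z.1) LS.fst
  have h2 := h.comp (π := fun z : α × ℕ × ℕ => z.1) LS.fst
  have q2 : LS (fun z : α × ℕ × ℕ => z.2.1) := by fun_prop
  have v2 : LS (fun z : α × ℕ × ℕ => z.2.2) := by fun_prop
  exact
    { S := hs.m.S
      κ := hs.m.κ
      D := hs.m.D
      θ := h.θ
      d := hd
      o := ho
      a := ha
      V := hV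
      Tc := hTc
      fin := h1.fin LS.snd
      N := h2.N q2 v2
      W := h2.Wr q2 v2
      q0 := h.q0
      M0 := h1.M0 LS.snd
      al := h.lC h.al
      fc := h2.fc q2 v2
      bd := hs.m.hC
      ok := fun z => hO ((s z).put (Ph z) (W z) (n z) (L z) (R z) (c z) (f z) (al z))
        (hs.pos z) (Nat.le_of_succ_le (hs.κ z)) (hs.S z) (hWb z) (d z) (a z) (V z) (Tc z) (o z)
        (hod z) (hSa z) (hθV z)
      h1 := hs.hθ
      h2 := hab
      h3 := hs.m.b3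
      h4 := hs.m.b4
      h5 := hdb
      h6 := hVb }

end Pool.Agent.Helper86.RECT
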