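import Pool.Agent.Helper92.RECT.Goals1

/-!
# RECT-STT: one step of the token machine
-/

namespace Pool.Agent.Helper86.RECT

open Pool.Agent.Helper65.LinSpace Pool.Agent.Helper78.Mpc Pool.Agent.Helper28.Ram Finset
open Pool.Agent.Helper92.RECT

theorem capN_eq {V v : ℕ} (h : v < 2 ^ (V + 1)) : capN V v = v := by
  unfold capN
  have h1 : Nat.log 2 v < V + 1 := by
    rcases Nat.eq_zero_or_pos v with rfl | hv
    · simp
    · exact Nat.log_lt_of_lt_pow hv.ne' h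
  rw [lt01, if_neg (by omega), ifz_zero]

theorem lt01_two (q : ℕ) : lt01 1 (2 + q) = 1 := by
  rw [lt01, if_pos (by omega)]

theorem lt01_le {Q : ℕ} (h : Q ≤ 1) : lt01 1 Q = 0 := by
  rw [lt01, if_neg (by omega)]

variable (P : Pr)

theorem fA_two (q : ℕ) : P.fA (2 + q) =
    capN P.V (ifz (P.fin q) (P.blk (P.ce q)) (P.blk P.al)) := by
  rw [Pr.fA, lt01_two, ifz_ne one_ne_zero, Nat.add_sub_cancel_left]

theorem fN_two (q v : ℕ) : P.fN (2 + q) v =
    capN P.V (ifz (P.fin q) (2 + P.rn (P.blk (P.ce q)) (q + 2 ^ P.sx * v) P.Tc % 2 ^ P.sx)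
      (lt01 0 (P.fc q (dig (2 ^ (P.S + 1)) v (P.cel P.al))))) := by
  rw [Pr.fN, lt01_two, ifz_ne one_ne_zero, Pr.rz, Nat.add_sub_cancel_left]

theorem fW_two (q v : ℕ) : P.fW (2 + q) v =
    ifz (P.fin q) (P.rn (P.blk (P.ce q)) (q + 2 ^ P.sx * v) P.Tc / 2 ^ P.sx) v % 2 ^ P.a := by
  rw [Pr.fW, lt01_two, ifz_ne one_ne_zero, Pr.rz, Nat.add_sub_cancel_left]

theorem conf_succ (T : ℕ) : P.conf (T + 1) =
    (P.fN (P.conf T).1 ((P.conf T).2 (P.fA (P.conf T).1)),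
      Function.update (P.conf T).2 (P.fA (P.conf T).1)
        (P.fW (P.conf T).1 ((P.conf T).2 (P.fA (P.conf T).1)))) := rfl

variable {P}

theorem lt_a (ok : P.Ok) {v : ℕ} (h : v < 2 ^ ((P.S + 1) * P.d ^ P.D)) : v < 2 ^ P.a :=
  lt_of_lt_of_le h (Nat.pow_le_pow_right (by norm_num) ok.ha)

theorem blk_cap (hG : GRID_stmt) (ok : P.Ok) (p : ℕ) : capN P.V (P.blk p) = P.blk p := by
  refine capN_eq ?_
  have h1 := hG.blk_lt P ok.hd ok.ho p
  have h2 : 2 ^ (P.κ * P.D) ≤ 2 ^ P.sx := Nat.pow_le_pow_right (by norm_num) (by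
    unfold Pr.sx; omega)
  have h3 := ok.hV
  omega

theorem stt_start (hG : GRID_stmt) (ok : P.Ok) : Out P (P.conf 0) 0 := by
  have hb : ∀ B, ∀ i < P.d ^ P.D, P.M0 (P.ccl B i) < 2 ^ (P.S + 1) :=
    fun B i _ => ok.M0_lt _
  have hlt : ∀ B, tab (2 ^ (P.S + 1)) (P.d ^ P.D) (fun j => P.M0 (P.ccl B j)) <
      2 ^ ((P.S + 1) * P.d ^ P.D) := by
    intro B
    rw [pow_mul]
    exact tab_lt (hb B)
  have hcm : ∀ B, P.cm B = tab (2 ^ (P.S + 1)) (P.d ^ P.D) (fun j => P.M0 (P.ccl B j)) :=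
    fun B => Nat.mod_eq_of_lt (lt_a ok (hlt B))
  refine ⟨?_, ?_, ?_⟩
  · show capN P.V (2 + P.q0) = 2 + P.q0
    refine capN_eq ?_
    have h1 := ok.q0_lt
    have h2 := ok.hV
    omega
  · intro B
    show P.cm B < _
    rw [hcm]
    exact hlt B
  · intro p hp
    show dig (2 ^ (P.S + 1)) (P.cm (P.blk p)) (P.cel p) = P.M0 p
    rw [hcm, dig_tab (hb _) (hG.cel_lt P ok.hd p), hG.ccl P ok.hd ok.ho p hp]

theorem stt_step (hG : GRID_stmt) (hR : RNG_stmt) (hI : INL_stmt) (ok : P.Ok) (hT : 0 < P.Tc)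
    (T t : ℕ) (hO : Out P (P.conf T) t) (hf : P.fin (P.X t).1 = 0) :
    ∃ m, 0 < m ∧ m ≤ P.Tc ∧ Out P (P.conf (T + 1)) (t + m) ∧
      (∀ i, t ≤ i → i < t + m → P.blk (P.ce (P.X i).1) = P.blk (P.ce (P.X t).1) ∧
        P.fin (P.X i).1 = 0) ∧
      (m = P.Tc ∨ P.blk (P.ce (P.X (t + m)).1) ≠ P.blk (P.ce (P.X t).1) ∨
        P.fin (P.X (t + m)).1 ≠ 0) ∧
      ((∀ i, t ≤ i → i < t + m → (P.X (i + 1)).2 = (P.X i).2) →
        P.fW (P.conf T).1 ((P.conf T).2 (P.fA (P.conf T).1)) =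
          (P.conf T).2 (P.fA (P.conf T).1)) := by
  have hq : (P.X t).1 < 2 ^ P.sx := (hR P ok t).1
  have hA : P.fA (P.conf T).1 = P.blk (P.ce (P.X t).1) := by
    rw [hO.q, fA_two, hf, ifz_zero, blk_cap hG ok]
  rw [hA]
  set B := P.blk (P.ce (P.X t).1) with hB
  set v := (P.conf T).2 B with hv
  have hvl : v < 2 ^ ((P.S + 1) * P.d ^ P.D) := hO.lt B
  have hsx : 0 < 2 ^ P.sx := by positivity
  have hz1 : ((P.X t).1 + 2 ^ P.sx * v) % 2 ^ P.sx = (P.X t).1 := by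
    rw [Nat.add_mul_mod_self_left, Nat.mod_eq_of_lt hq]
  have hz2 : ((P.X t).1 + 2 ^ P.sx * v) / 2 ^ P.sx = v := by
    rw [Nat.add_mul_div_left _ _ hsx, Nat.div_eq_of_lt hq, Nat.zero_add]
  have hin : Inn P B t ((P.X t).1 + 2 ^ P.sx * v) t := by
    refine ⟨hz1, ?_, ?_, fun p _ => rfl⟩
    · rw [hz2]; exact hvl
    · intro p hp hpB
      rw [hz2, hv, ← hpB]
      exact hO.mem p hp
  obtain ⟨m, hm, hI1, hI2, hI3, hI4⟩ := hI P ok B t _ hin P.Tc
  have hN : P.fN (P.conf T).1 v = 2 + (P.X (t + m)).1 := by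
    rw [hO.q, fN_two, hf, ifz_zero, ← hB, hI1.q]
    refine capN_eq ?_
    have h1 := (hR P ok (t + m)).1
    have h2 := ok.hV
    omega
  have hW : P.fW (P.conf T).1 v =
      P.rn B ((P.X t).1 + 2 ^ P.sx * v) P.Tc / 2 ^ P.sx := by
    rw [hO.q, fW_two, hf, ifz_zero, ← hB]
    exact Nat.mod_eq_of_lt (lt_a ok hI1.lt)
  have hc : P.conf (T + 1) = (2 + (P.X (t + m)).1, Function.update (P.conf T).2 B
      (P.rn B ((P.X t).1 + 2 ^ P.sx * v) P.Tc / 2 ^ P.sx)) := by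
    rw [conf_succ, hA, ← hv, hN, hW]
  refine ⟨m, ?_, hm, ⟨?_, ?_, ?_⟩, hI2, hI3, ?_⟩
  · rcases Nat.eq_zero_or_pos m with rfl | h
    · exfalso
      rcases hI3 with h | h | h
      · omega
      · exact h rfl
      · exact h hf
    · exact h
  · rw [hc]
  · intro B'
    rw [hc]
    by_cases h : B' = B
    · subst h
      simp only [Function.update_self]
      exact hI1.lt
    · simp only [Function.update_of_ne h]
      exact hO.lt B'
  · intro p hp
    rw [hc]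
    by_cases h : P.blk p = B
    · simp only [h, Function.update_self]
      exact hI1.cub p hp h
    · simp only [Function.update_of_ne h]
      rw [hI1.out p h]
      exact hO.mem p hp
  · intro h
    rw [hW, hI4 h, hz2]

theorem stt_check (hG : GRID_stmt) (ok : P.Ok) (T t : ℕ) (hO : Out P (P.conf T) t)
    (hf : P.fin (P.X t).1 ≠ 0) :
    (P.conf (T + 1)).1 = lt01 0 (P.fc (P.X t).1 ((P.X t).2 P.al)) ∧
      (P.conf (T + 1)).2 = (P.conf T).2 ∧
      P.fW (P.conf T).1 ((P.conf T).2 (P.fA (P.conf T).1)) =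
        (P.conf T).2 (P.fA (P.conf T).1) := by
  have hA : P.fA (P.conf T).1 = P.blk P.al := by
    rw [hO.q, fA_two, ifz_ne hf, blk_cap hG ok]
  have hW : ∀ v, v < 2 ^ ((P.S + 1) * P.d ^ P.D) → P.fW (P.conf T).1 v = v := by
    intro v hv
    rw [hO.q, fW_two, ifz_ne hf]
    exact Nat.mod_eq_of_lt (lt_a ok hv)
  have hW' : P.fW (P.conf T).1 ((P.conf T).2 (P.fA (P.conf T).1)) =
      (P.conf T).2 (P.fA (P.conf T).1) := hW _ (hO.lt _)
  refine ⟨?_, ?_, hW'⟩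
  · rw [conf_succ]
    show P.fN (P.conf T).1 ((P.conf T).2 (P.fA (P.conf T).1)) = _
    rw [hA, hO.q, fN_two, ifz_ne hf, hO.mem P.al ok.hal]
    refine capN_eq ?_
    have h2 := ok.hV
    have h3 : 0 < 2 ^ P.sx := by positivity
    unfold lt01
    split_ifs <;> omega
  · rw [conf_succ]
    show Function.update (P.conf T).2 (P.fA (P.conf T).1) (P.fW (P.conf T).1
      ((P.conf T).2 (P.fA (P.conf T).1))) = _
    rw [hW']
    exact Function.update_eq_self _ _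

theorem stt_stop (ok : P.Ok) (T : ℕ) (h1 : (P.conf T).1 ≤ 1)
    (h2 : ∀ B, (P.conf T).2 B < 2 ^ P.a) : P.conf (T + 1) = P.conf T := by
  have hN : ∀ v, P.fN (P.conf T).1 v = (P.conf T).1 := by
    intro v
    rw [Pr.fN, lt01_le h1, ifz_zero]
    refine capN_eq ?_
    have h3 := ok.hV
    have h4 : 0 < 2 ^ P.sx := by positivity
    omega
  have hW : P.fW (P.conf T).1 ((P.conf T).2 (P.fA (P.conf T).1)) =
      (P.conf T).2 (P.fA (P.conf T).1) := by
    rw [Pr.fW, lt01_le h1, ifz_zero]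
    exact Nat.mod_eq_of_lt (h2 _)
  rw [conf_succ, hN, hW, Function.update_eq_self]

/-- One step of the token machine. -/
theorem stt (hG : GRID_stmt) (hR : RNG_stmt) (hI : INL_stmt) : STT_stmt where
  start _ ok := stt_start hG ok
  step _ ok hT T t hO hf := stt_step hG hR hI ok hT T t hO hf
  check _ ok T t hO hf := stt_check hG ok T t hO hf
  stop _ ok T h1 h2 := stt_stop ok T h1 h2

end Pool.Agent.Helper86.RECT
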